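import Pool.Agent.Helper68.AG.Mom

/-! Project AG (MP_9ee088_an), block M1: simple zeros. -/

set_option autoImplicit false
open MeasureTheory Real Set Filter Topology
open scoped ENNReal

namespace Pool.Agent.Helper68.AG

open Pool.Agent.Helper95.AF (ip un)

/-- level sets of `d(y + s t) - c` -/
theorem lev1 {a s y c τ : ℝ} (ha : 100 ≤ |a|) (hs : 0 < s) (hs1 : s ≤ 1) (hc : |c| ≤ |a|) (hτ : 0 < τ) :
    un {t : ℝ | |2 + 2 * π * a * Real.cos (2 * π * (y + s * t)) - c| < τ} ≤ ENNReal.ofReal (10 * τ / (|a| * s)) := by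
  have hπ := Real.pi_gt_three
  have ha0 : 0 < |a| := by linarith
  have ha' : a ≠ 0 := abs_pos.1 ha0
  rcases le_or_gt (|a| / 10) τ with hb | hb
  · refine (prob_le_one).trans ?_
    rw [← ENNReal.ofReal_one]
    apply ENNReal.ofReal_le_ofReal
    rw [one_le_div (by positivity)]
    nlinarith
  set τ₀ : ℝ := (c - 2) / (2 * π * a) with hτ₀
  have h2π : 0 < 2 * π * |a| := by positivity
  have hτabs : |τ₀| ≤ 17 / 100 := by
    rw [hτ₀, abs_div, abs_mul, abs_of_pos (by positivity : 0 < 2 * π), div_le_iff₀ h2π]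
    have h3 : |c - 2| ≤ |c| + 2 := by
      have := abs_sub c 2
      rwa [abs_of_pos (by norm_num : (0:ℝ) < 2)] at this
    nlinarith
  obtain ⟨hτ1, hτ2⟩ := abs_le.1 hτabs
  set φ : ℝ := Real.arccos τ₀ / (2 * π) with hφ
  have hφ1 : 2 * π * φ = Real.arccos τ₀ := by
    rw [hφ]; field_simp
  have hcos : Real.cos (2 * π * φ) = τ₀ := by rw [hφ1, Real.cos_arccos (by linarith) (by linarith)]
  have hsin : (4:ℝ) / 5 ≤ |Real.sin (2 * π * φ)| := by
    have h1 := Real.sin_sq_add_cos_sq (2 * π * φ)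
    rw [hcos] at h1
    have h2 : τ₀ ^ 2 ≤ 9 / 25 := by nlinarith
    have h3 : (4 / 5 : ℝ) ^ 2 ≤ |Real.sin (2 * π * φ)| ^ 2 := by
      rw [sq_abs]; nlinarith
    exact le_of_sq_le_sq h3 (abs_nonneg _) |> fun h => h
  set r : ℝ := τ / (2 * π * |a|) with hr
  have hr0 : 0 < r := by positivity
  have hsub : {t : ℝ | |2 + 2 * π * a * Real.cos (2 * π * (y + s * t)) - c| < τ} ⊆
      {t : ℝ | ‖((y + s * t - φ : ℝ) : UnitAddCircle)‖ < r} ∪ {t : ℝ | ‖((y + s * t - -φ : ℝ) : UnitAddCircle)‖ < r} := by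
    intro t ht
    rw [mem_ofPred_eq] at ht
    set x := y + s * t with hx
    have e0 : 2 + 2 * π * a * Real.cos (2 * π * x) - c = 2 * π * a * (Real.cos (2 * π * x) - τ₀) := by
      rw [hτ₀]
      field_simp
      ring
    rw [e0, abs_mul, abs_mul, abs_of_pos (by positivity : 0 < 2 * π)] at ht
    have ht' : |Real.cos (2 * π * x) - τ₀| < r := by
      rw [hr, lt_div_iff₀ h2π]
      linarith
    have e1 : Real.cos (2 * π * x) - τ₀ = -(2 * Real.sin (π * (x + φ)) * Real.sin (π * (x - φ))) := by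
      rw [← hcos, Real.cos_sub_cos]
      rw [show (2 * π * x + 2 * π * φ) / 2 = π * (x + φ) by ring,
        show (2 * π * x - 2 * π * φ) / 2 = π * (x - φ) by ring]
      ring
    rw [e1, abs_neg, abs_mul, abs_mul, abs_of_pos (by norm_num : (0:ℝ) < 2)] at ht'
    have e2 : |Real.sin (2 * π * φ)| ≤ |Real.sin (π * (x + φ))| + |Real.sin (π * (x - φ))| := by
      have : Real.sin (2 * π * φ) = Real.sin (π * (x + φ)) * Real.cos (π * (x - φ)) -
          Real.cos (π * (x + φ)) * Real.sin (π * (x - φ)) := by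
        rw [← Real.sin_sub]; congr 1; ring
      rw [this]
      refine (abs_sub _ _).trans ?_
      rw [abs_mul, abs_mul]
      have h1 := Real.abs_cos_le_one (π * (x - φ))
      have h2 := Real.abs_cos_le_one (π * (x + φ))
      have h3 := abs_nonneg (Real.sin (π * (x + φ)))
      have h4 := abs_nonneg (Real.sin (π * (x - φ)))
      nlinarith
    have h3 := abs_nonneg (Real.sin (π * (x + φ)))
    have h4 := abs_nonneg (Real.sin (π * (x - φ)))
    rcases le_or_gt (2 / 5) |Real.sin (π * (x + φ))| with h | h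
    · left
      have h5 := Pool.Agent.Helper8.AF.sin_ge (x - φ)
      have h6 : 4 / 5 * |Real.sin (π * (x - φ))| < r := by nlinarith
      show ‖((x - φ : ℝ) : UnitAddCircle)‖ < r
      linarith
    · right
      have h7 : 2 / 5 ≤ |Real.sin (π * (x - φ))| := by linarith
      have h5 := Pool.Agent.Helper8.AF.sin_ge (x - -φ)
      rw [sub_neg_eq_add] at h5
      have h6 : 4 / 5 * |Real.sin (π * (x + φ))| < r := by nlinarith
      show ‖((x - -φ : ℝ) : UnitAddCircle)‖ < r
      rw [sub_neg_eq_add]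
      linarith
  calc un {t : ℝ | |2 + 2 * π * a * Real.cos (2 * π * (y + s * t)) - c| < τ} ≤ _ := measure_mono hsub
    _ ≤ _ := measure_union_le _ _
    _ ≤ ENNReal.ofReal (2 * r / s) + ENNReal.ofReal (2 * r / s) := add_le_add (arc_sub hs hs1 _ _ _) (arc_sub hs hs1 _ _ _)
    _ ≤ ENNReal.ofReal (10 * τ / (|a| * s)) := by
        rw [← ENNReal.ofReal_add (by positivity) (by positivity)]
        apply ENNReal.ofReal_le_ofReal
        have e : 2 * r / s + 2 * r / s = (2 / π) * (τ / (|a| * s)) := by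
          rw [hr]
          field_simp
          norm_num
        rw [e, mul_div_assoc]
        refine mul_le_mul_of_nonneg_right ?_ (by positivity)
        rw [div_le_iff₀ (by positivity)]
        linarith

/-- **M1** -/
theorem m1 : ∃ C : ℝ, 1 ≤ C ∧ ∀ a s y c q : ℝ, 100 ≤ |a| → 0 < s → s ≤ 1 → 0 < q → q ≤ 1 / 4 → |c| ≤ |a| →
    ∫⁻ t, ip q |2 + 2 * π * a * Real.cos (2 * π * (y + s * t)) - c| ∂un ≤ ENNReal.ofReal (C * (|a| * s) ^ (-q)) := by
  refine ⟨1 + 10, by norm_num, fun a s y c q ha hs hs1 hq hq4 hc => ?_⟩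
  have ha0 : 0 < |a| := by linarith
  refine mom_sqrt (by fun_prop) (by norm_num) (by positivity) hq hq4 fun u hu => ?_
  rcases le_or_gt u 1 with h1 | h1
  · refine (lev1 (y := y) ha hs hs1 hc (by positivity : 0 < u * (|a| * s))).trans ?_
    apply ENNReal.ofReal_le_ofReal
    have e : 10 * (u * (|a| * s)) / (|a| * s) = 10 * u := by field_simp
    rw [e]
    have h2 : u ≤ Real.sqrt u := Real.le_sqrt_of_sq_le (by nlinarith)
    linarith
  · refine (prob_le_one).trans ?_
    rw [← ENNReal.ofReal_one]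
    apply ENNReal.ofReal_le_ofReal
    have h2 : 1 ≤ Real.sqrt u := Real.one_le_sqrt.2 h1.le
    linarith

end Pool.Agent.Helper68.AG
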