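import Pool.Agent.Helper95.AG.Defs
import Pool.Agent.Helper8.AF.Cos

/-! Project AG (MP_9ee088_an): moments from level sets; arcs. -/

set_option autoImplicit false
open MeasureTheory Real Set Filter Topology
open scoped ENNReal

namespace Pool.Agent.Helper68.AG

open Pool.Agent.Helper95.AF (ip un)

instance un_prob68 : IsProbabilityMeasure un := by
  unfold un
  constructor
  rw [Measure.restrict_apply_univ, Real.volume_Icc]
  norm_num

theorem ip_meas68 (p : ℝ) : Measurable (ip p) := by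
  unfold ip
  fun_prop

/-- Hoelder's inequality on a probability space -/
theorem holder68 {X : Type*} [MeasurableSpace X] {μ : Measure X} [IsProbabilityMeasure μ] {f : X → ℝ≥0∞}
    (hf : AEMeasurable f μ) {c : ℝ} (hc0 : 0 < c) (hc1 : c ≤ 1) :
    ∫⁻ x, f x ^ c ∂μ ≤ (∫⁻ x, f x ∂μ) ^ c := by
  rcases hc1.eq_or_lt with h | h
  · rw [h]
    simp
  have hpq : (1 / c).HolderConjugate (1 / (1 - c)) := by
    rw [Real.holderConjugate_iff]
    constructor
    · rw [lt_div_iff₀ hc0]
      linarith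
    · rw [one_div, inv_inv, one_div, inv_inv]
      ring
  have h1 := ENNReal.lintegral_mul_le_Lp_mul_Lq μ hpq (hf.pow_const c) (aemeasurable_const (b := (1 : ℝ≥0∞)))
  have h2 : ∀ x, (f x ^ c) ^ c⁻¹ = f x := by
    intro x
    rw [← ENNReal.rpow_mul, mul_inv_cancel₀ hc0.ne', ENNReal.rpow_one]
  simp only [Pi.mul_apply, mul_one, ENNReal.one_rpow, lintegral_one, measure_univ, one_div, inv_inv, h2] at h1
  exact h1

/-- level sets to moments, order `1/4` -/
theorem mom_quarter {X : Type*} [MeasurableSpace X] {μ : Measure X} [IsProbabilityMeasure μ] {g : X → ℝ}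
    (hg : Measurable g) {K : ℝ} (hK : 0 ≤ K)
    (h : ∀ u : ℝ, 0 < u → μ {x | |g x| < u} ≤ ENNReal.ofReal (K * Real.sqrt u)) :
    ∫⁻ x, ip (1 / 4) |g x| ∂μ ≤ ENNReal.ofReal (1 + K) := by
  have hgm : Measurable fun x => |g x| := hg.abs
  -- the zero set is null
  have hnull : μ {x | ¬ 0 < |g x|} = 0 := by
    have h1 : ∀ u : ℝ, 0 < u → μ {x | ¬ 0 < |g x|} ≤ ENNReal.ofReal (K * Real.sqrt u) := by
      intro u hu
      refine le_trans (measure_mono ?_) (h u hu)
      intro x hx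
      have hx' : ¬ 0 < |g x| := hx
      show |g x| < u
      linarith [not_lt.1 hx']
    have h2 : Tendsto (fun u : ℝ => ENNReal.ofReal (K * Real.sqrt u)) (𝓝[>] 0) (𝓝 0) := by
      have h3 : Tendsto (fun u : ℝ => ENNReal.ofReal (K * Real.sqrt u)) (𝓝 0) (𝓝 (ENNReal.ofReal (K * Real.sqrt 0))) :=
        (ENNReal.continuous_ofReal.comp (continuous_const.mul Real.continuous_sqrt)).tendsto 0
      rw [Real.sqrt_zero, mul_zero, ENNReal.ofReal_zero] at h3
      exact h3.mono_left nhdsWithin_le_nhds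
    have h4 : μ {x | ¬ 0 < |g x|} ≤ 0 := by
      refine ge_of_tendsto h2 ?_
      filter_upwards [self_mem_nhdsWithin] with u hu
      exact h1 u hu
    exact nonpos_iff_eq_zero.1 h4
  have hae : (fun x => ip (1 / 4) |g x|) =ᵐ[μ] fun x => ENNReal.ofReal (|g x| ^ (-(1 / 4) : ℝ)) := by
    have h1 : ∀ᵐ x ∂μ, 0 < |g x| := hnull
    filter_upwards [h1] with x hx
    unfold ip
    rw [ENNReal.ofReal_rpow_of_pos hx]
  rw [lintegral_congr_ae hae]
  have hhm : Measurable fun x => |g x| ^ (-(1 / 4) : ℝ) := hgm.pow_const _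
  rw [lintegral_eq_lintegral_meas_lt μ (Filter.Eventually.of_forall fun x => by
    show 0 ≤ |g x| ^ (-(1 / 4) : ℝ)
    positivity) hhm.aemeasurable]
  have hb : ∀ s ∈ Ioi (0:ℝ), μ {x | s < |g x| ^ (-(1 / 4) : ℝ)} ≤
      (Ioc (0:ℝ) 1).indicator (fun _ => (1:ℝ≥0∞)) s + (Ioi (1:ℝ)).indicator (fun s => ENNReal.ofReal (K * s ^ (-2:ℝ))) s := by
    intro s hs
    have hs0 : 0 < s := hs
    rcases le_or_gt s 1 with h1 | h1
    · rw [indicator_of_mem (show s ∈ Ioc (0:ℝ) 1 from ⟨hs0, h1⟩)]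
      exact (prob_le_one).trans le_self_add
    · rw [indicator_of_mem (show s ∈ Ioi (1:ℝ) from h1)]
      refine le_trans ?_ le_add_self
      have h2 := h (s ^ (-4:ℝ)) (by positivity)
      have e : Real.sqrt (s ^ (-4:ℝ)) = s ^ (-2:ℝ) := by
        rw [Real.sqrt_eq_rpow, ← Real.rpow_mul hs0.le]
        norm_num
      rw [e] at h2
      refine le_trans (measure_mono ?_) h2
      intro x hx
      have hx' : s < |g x| ^ (-(1 / 4) : ℝ) := hx
      have hgx : 0 < |g x| := by
        rcases (abs_nonneg (g x)).eq_or_lt with h0 | h0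
        · rw [← h0, Real.zero_rpow (by norm_num)] at hx'
          linarith
        · exact h0
      have h3 : s ^ (4:ℝ) < (|g x| ^ (-(1 / 4) : ℝ)) ^ (4:ℝ) := Real.rpow_lt_rpow hs0.le hx' (by norm_num)
      rw [← Real.rpow_mul hgx.le] at h3
      have h4 : (-(1 / 4) : ℝ) * 4 = -1 := by norm_num
      rw [h4, Real.rpow_neg_one] at h3
      show |g x| < s ^ (-4:ℝ)
      rw [Real.rpow_neg hs0.le]
      exact (lt_inv_comm₀ (by positivity) hgx).1 h3
  calc ∫⁻ s in Ioi (0:ℝ), μ {x | s < |g x| ^ (-(1 / 4) : ℝ)}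
      ≤ ∫⁻ s in Ioi (0:ℝ), ((Ioc (0:ℝ) 1).indicator (fun _ => (1:ℝ≥0∞)) s +
        (Ioi (1:ℝ)).indicator (fun s => ENNReal.ofReal (K * s ^ (-2:ℝ))) s) :=
        setLIntegral_mono' measurableSet_Ioi hb
    _ ≤ ∫⁻ s, ((Ioc (0:ℝ) 1).indicator (fun _ => (1:ℝ≥0∞)) s +
        (Ioi (1:ℝ)).indicator (fun s => ENNReal.ofReal (K * s ^ (-2:ℝ))) s) := setLIntegral_le_lintegral _ _
    _ = 1 + ENNReal.ofReal K := by
        rw [lintegral_add_left (measurable_const.indicator measurableSet_Ioc),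
          lintegral_indicator measurableSet_Ioc, lintegral_indicator measurableSet_Ioi, lintegral_one,
          Measure.restrict_apply_univ, Real.volume_Ioc]
        congr 1
        · norm_num
        · have h6 : ∫⁻ s in Ioi (1:ℝ), ENNReal.ofReal (K * s ^ (-2:ℝ)) = ENNReal.ofReal (∫ s in Ioi (1:ℝ), K * s ^ (-2:ℝ)) := by
            rw [ofReal_integral_eq_lintegral_ofReal]
            · exact (integrableOn_Ioi_rpow_of_lt (by norm_num) one_pos).const_mul K
            · refine (ae_restrict_iff' measurableSet_Ioi).2 (Filter.Eventually.of_forall fun s hs => ?_)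
              have : (0:ℝ) < s := lt_trans one_pos hs
              show (0:ℝ) ≤ K * s ^ (-2:ℝ)
              positivity
          rw [h6, integral_const_mul, integral_Ioi_rpow_of_lt (by norm_num) one_pos]
          norm_num
    _ = ENNReal.ofReal (1 + K) := by rw [ENNReal.ofReal_add (by norm_num) hK, ENNReal.ofReal_one]

/-- level sets to moments of all orders `q ≤ 1/4` -/
theorem mom_sqrt {X : Type*} [MeasurableSpace X] {μ : Measure X} [IsProbabilityMeasure μ] {g : X → ℝ}
    (hg : Measurable g) {K M q : ℝ} (hK : 0 ≤ K) (hM : 0 < M) (hq : 0 < q) (hq4 : q ≤ 1 / 4)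
    (h : ∀ u : ℝ, 0 < u → μ {x | |g x| < u * M} ≤ ENNReal.ofReal (K * Real.sqrt u)) :
    ∫⁻ x, ip q |g x| ∂μ ≤ ENNReal.ofReal ((1 + K) * M ^ (-q)) := by
  have h1 : ∫⁻ x, ip (1 / 4) |g x / M| ∂μ ≤ ENNReal.ofReal (1 + K) := by
    refine mom_quarter (hg.div_const M) hK fun u hu => ?_
    refine le_trans (measure_mono ?_) (h u hu)
    intro x hx
    have hx' : |g x / M| < u := hx
    rw [abs_div, abs_of_pos hM, div_lt_iff₀ hM] at hx'
    exact hx'
  have e : ∀ x, ip q |g x| = ENNReal.ofReal (M ^ (-q)) * (ip (1 / 4) |g x / M|) ^ (4 * q) := by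
    intro x
    unfold ip
    rw [← ENNReal.rpow_mul, show -(1 / 4 : ℝ) * (4 * q) = -q by ring]
    have e1 : |g x| = M * |g x / M| := by
      rw [abs_div, abs_of_pos hM]
      field_simp
    rw [e1, ENNReal.ofReal_mul hM.le, ENNReal.mul_rpow_of_ne_top ENNReal.ofReal_ne_top ENNReal.ofReal_ne_top,
      ENNReal.ofReal_rpow_of_pos hM]
  have hm : Measurable fun x => ip (1 / 4) |g x / M| := (ip_meas68 _).comp (hg.div_const M).abs
  simp only [e]
  rw [lintegral_const_mul _ (hm.pow_const _)]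
  have h2 : ∫⁻ x, (ip (1 / 4) |g x / M|) ^ (4 * q) ∂μ ≤ ENNReal.ofReal (1 + K) := by
    refine (holder68 hm.aemeasurable (by positivity) (by linarith)).trans ?_
    calc (∫⁻ x, ip (1 / 4) |g x / M| ∂μ) ^ (4 * q) ≤ (ENNReal.ofReal (1 + K)) ^ (4 * q) :=
          ENNReal.rpow_le_rpow h1 (by positivity)
      _ ≤ (ENNReal.ofReal (1 + K)) ^ (1 : ℝ) := by
          refine ENNReal.rpow_le_rpow_of_exponent_le ?_ (by linarith)
          rw [← ENNReal.ofReal_one]
          exact ENNReal.ofReal_le_ofReal (by linarith)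
      _ = ENNReal.ofReal (1 + K) := ENNReal.rpow_one _
  calc ENNReal.ofReal (M ^ (-q)) * ∫⁻ x, (ip (1 / 4) |g x / M|) ^ (4 * q) ∂μ
      ≤ ENNReal.ofReal (M ^ (-q)) * ENNReal.ofReal (1 + K) := by gcongr
    _ = ENNReal.ofReal ((1 + K) * M ^ (-q)) := by
        rw [← ENNReal.ofReal_mul (by positivity), mul_comm]

/-- the time spent near a point of the circle -/
theorem arc_sub {s : ℝ} (hs : 0 < s) (hs1 : s ≤ 1) (y φ w : ℝ) :
    un {t : ℝ | ‖((y + s * t - φ : ℝ) : UnitAddCircle)‖ < w} ≤ ENNReal.ofReal (2 * w / s) := by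
  set B : Set UnitAddCircle := Metric.ball ((φ : ℝ) : UnitAddCircle) w with hB
  have hBm : MeasurableSet B := Metric.isOpen_ball.measurableSet
  have h1 := Pool.Agent.Helper8.AF.arc (g := B.indicator fun _ => (1 : ℝ≥0∞)) (measurable_const.indicator hBm)
    ((y : ℝ) : UnitAddCircle) hs hs1
  rw [lintegral_indicator hBm, lintegral_one, Measure.restrict_apply_univ] at h1
  have h2 : un {t : ℝ | ‖((y + s * t - φ : ℝ) : UnitAddCircle)‖ < w} =
      ∫⁻ u in Ioc (0 : ℝ) 1, B.indicator (fun _ => (1 : ℝ≥0∞)) ((y : UnitAddCircle) + ((s * u : ℝ) : UnitAddCircle)) := by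
    have hm : MeasurableSet {t : ℝ | ‖((y + s * t - φ : ℝ) : UnitAddCircle)‖ < w} := by
      refine measurableSet_lt ?_ measurable_const
      exact (AddCircle.measurable_mk'.comp (by fun_prop : Measurable fun t : ℝ => y + s * t - φ)).norm
    unfold un
    rw [← lintegral_indicator_one hm, setLIntegral_congr Ioc_ae_eq_Icc.symm]
    refine lintegral_congr fun t => ?_
    have e : (t ∈ {t : ℝ | ‖((y + s * t - φ : ℝ) : UnitAddCircle)‖ < w}) ↔
        ((y : UnitAddCircle) + ((s * t : ℝ) : UnitAddCircle)) ∈ B := by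
      rw [hB, Metric.mem_ball, dist_eq_norm, mem_ofPred_eq, ← AddCircle.coe_add, ← AddCircle.coe_sub]
    by_cases ht : t ∈ {t : ℝ | ‖((y + s * t - φ : ℝ) : UnitAddCircle)‖ < w}
    · rw [indicator_of_mem ht, indicator_of_mem (e.1 ht)]
      rfl
    · rw [indicator_of_notMem ht, indicator_of_notMem fun h => ht (e.2 h)]
  rw [h2]
  refine h1.trans ?_
  calc ENNReal.ofReal s⁻¹ * volume B ≤ ENNReal.ofReal s⁻¹ * ENNReal.ofReal (2 * w) := by
        gcongr
        exact Pool.Agent.Helper95.PV.vol_ball _ _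
    _ = ENNReal.ofReal (2 * w / s) := by
        rw [← ENNReal.ofReal_mul (by positivity)]
        congr 1
        field_simp

end Pool.Agent.Helper68.AG
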